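import Mathlib

/-!
# Generic projections of lattice points on a sphere: algebra
-/

set_option autoImplicit false

open Finset

namespace Pool.Agent.Run7.h205.CR

/-- the inner product -/
def dt {D : ℕ} (u s : Fin D → ℝ) : ℝ := ∑ i, u i * s i

variable {D : ℕ}

lemma dt_comm (u s : Fin D → ℝ) : dt u s = dt s u := by
  unfold dt
  exact sum_congr rfl fun i _ => mul_comm _ _

lemma dt_add (u s t : Fin D → ℝ) : dt u (s + t) = dt u s + dt u t := by
  unfold dt
  rw [← sum_add_distrib]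
  exact sum_congr rfl fun i _ => by simp [mul_add]

lemma dt_sub (u s t : Fin D → ℝ) : dt u (s - t) = dt u s - dt u t := by
  unfold dt
  rw [← sum_sub_distrib]
  exact sum_congr rfl fun i _ => by simp [mul_sub]

lemma dt_smul (u : Fin D → ℝ) (c : ℝ) (s : Fin D → ℝ) : dt u (c • s) = c * dt u s := by
  unfold dt
  rw [mul_sum]
  exact sum_congr rfl fun i _ => by simp; ring

lemma add_dt (u v s : Fin D → ℝ) : dt (u + v) s = dt u s + dt v s := by
  rw [dt_comm, dt_add, dt_comm s u, dt_comm s v]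

lemma sub_dt (u v s : Fin D → ℝ) : dt (u - v) s = dt u s - dt v s := by
  rw [dt_comm, dt_sub, dt_comm s u, dt_comm s v]

lemma smul_dt (c : ℝ) (u s : Fin D → ℝ) : dt (c • u) s = c * dt u s := by
  rw [dt_comm, dt_smul, dt_comm]

lemma dt_self_eq_zero {u : Fin D → ℝ} (h : dt u u = 0) : u = 0 := by
  unfold dt at h
  rw [sum_eq_zero_iff_of_nonneg (fun i _ => mul_self_nonneg (u i))] at h
  funext i
  exact mul_self_eq_zero.1 (h i (mem_univ i))

/-- the Gram determinant -/
def Gr (u v : Fin D → ℝ) : ℝ := dt u u * dt v v - dt u v ^ 2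

lemma Gr_comm (u v : Fin D → ℝ) : Gr u v = Gr v u := by
  unfold Gr
  rw [dt_comm u v]
  ring

lemma par_of_Gr {u v : Fin D → ℝ} (h : Gr u v = 0) : dt u u • v = dt u v • u := by
  have h1 : dt (dt u u • v - dt u v • u) (dt u u • v - dt u v • u) = dt u u * Gr u v := by
    simp only [dt_sub, sub_dt, dt_smul, smul_dt]
    unfold Gr
    rw [dt_comm v u]
    ring
  rw [h, mul_zero] at h1
  exact sub_eq_zero.1 (dt_self_eq_zero h1)

lemma indep {u w : Fin D → ℝ} (h : Gr u w ≠ 0) {α β : ℝ} (e : α • u = β • w) : α = 0 ∧ β = 0 := by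
  have e1 : α * dt u u = β * dt u w := by
    rw [← dt_smul, e, dt_smul]
  have e2 : α * dt u w = β * dt w w := by
    rw [dt_comm u w, ← dt_smul, e, dt_smul]
  constructor
  · have : α * Gr u w = 0 := by
      unfold Gr
      calc α * (dt u u * dt w w - dt u w ^ 2) = (α * dt u u) * dt w w - (α * dt u w) * dt u w := by
            ring
        _ = 0 := by rw [e1, e2]; ring
    exact (mul_eq_zero.1 this).resolve_right h
  · have : β * Gr u w = 0 := by
      unfold Gr
      calc β * (dt u u * dt w w - dt u w ^ 2) = dt u u * (β * dt w w) - dt u w * (β * dt u w) := by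
            ring
        _ = 0 := by rw [← e1, ← e2]; ring
    exact (mul_eq_zero.1 this).resolve_right h

lemma ne_zero_of_Gr {u v : Fin D → ℝ} (h : Gr u v ≠ 0) : dt u u ≠ 0 := by
  intro h0
  have : u = 0 := dt_self_eq_zero h0
  subst this
  apply h
  simp [Gr, dt]

/-- three distinct points of a sphere around the origin are not collinear -/
lemma Gr_sphere {a b c : Fin D → ℝ} (hab : dt a a = dt b b) (hac : dt a a = dt c c) (h1 : a ≠ b)
    (h2 : a ≠ c) (h3 : b ≠ c) : Gr (b - a) (c - a) ≠ 0 := by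
  intro h
  set u := b - a with hu
  set v := c - a with hv
  have hb : b = a + u := by rw [hu]; abel
  have hc : c = a + v := by rw [hv]; abel
  have e1 : dt u u = -2 * dt a u := by
    rw [hb, dt_add, add_dt, add_dt, dt_comm u a] at hab
    linarith
  have e2 : dt v v = -2 * dt a v := by
    rw [hc, dt_add, add_dt, add_dt, dt_comm v a] at hac
    linarith
  have hp := par_of_Gr h
  have hN : dt u u ≠ 0 := by
    intro h0
    have := dt_self_eq_zero h0
    apply h1
    rw [hb, this, add_zero]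
  have e3 : dt u u * dt a v = dt u v * dt a u := by
    rw [← dt_smul, hp, dt_smul]
  have e4 : dt u u * dt v v = dt u v * dt u u := by
    rw [e2, show dt u u * (-2 * dt a v) = -2 * (dt u u * dt a v) by ring, e3, e1]
    ring
  have e5 : dt v v = dt u v := by
    have : dt u u * (dt v v - dt u v) = 0 := by linarith
    have := (mul_eq_zero.1 this).resolve_left hN
    linarith
  have e6 : dt v v * (dt u u - dt v v) = 0 := by
    unfold Gr at h
    rw [← e5] at h
    linarith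
  rcases mul_eq_zero.1 e6 with h0 | h0
  · apply h2
    rw [hc, dt_self_eq_zero h0, add_zero]
  · have e7 : dt u v = dt u u := by linarith
    rw [e7] at hp
    have : v = u := smul_right_injective _ hN hp
    apply h3
    rw [hb, hc, this]

/-! ### Four points -/

/-- the expression which vanishes if `0` and the images of `u, v, w` are on a circle -/
def F4 (u v w s t : Fin D → ℝ) : ℝ :=
  (dt u s ^ 2 + dt u t ^ 2) * (dt v s * dt w t - dt v t * dt w s) +
  (dt v s ^ 2 + dt v t ^ 2) * (dt w s * dt u t - dt w t * dt u s) +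
  (dt w s ^ 2 + dt w t ^ 2) * (dt u s * dt v t - dt u t * dt v s)

lemma F4_cyc (u v w s t : Fin D → ℝ) : F4 u v w s t = F4 v w u s t := by
  unfold F4
  ring

lemma exists_s {u v w : Fin D → ℝ} (h1 : Gr u v ≠ 0) (h2 : Gr u w ≠ 0) (h3 : Gr u (v - w) ≠ 0) :
    ∃ s : Fin D → ℝ, dt u s = 0 ∧ dt v s ≠ 0 ∧ dt w s ≠ 0 ∧ dt v s ≠ dt w s := by
  set p := Gr u v with hp
  set r := Gr u w with hr
  set q := dt u u * dt v w - dt u v * dt u w with hq
  have h4 : p - 2 * q + r ≠ 0 := by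
    have : Gr u (v - w) = p - 2 * q + r := by
      rw [hp, hr, hq]
      unfold Gr
      simp only [dt_sub, sub_dt]
      rw [dt_comm w v]
      ring
    rwa [← this]
  obtain ⟨h, hh⟩ := Infinite.exists_notMem_finset ({-p / q, -q / r, -(p - q) / (q - r)} : Finset ℝ)
  simp only [mem_insert, mem_singleton, not_or] at hh
  obtain ⟨k1, k2, k3⟩ := hh
  set s := (dt u u • v - dt u v • u) + h • (dt u u • w - dt u w • u) with hs
  have e0 : dt u s = 0 := by
    rw [hs]
    simp only [dt_add, dt_sub, dt_smul]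
    ring
  have e1 : dt v s = p + h * q := by
    rw [hs, hp, hq]
    unfold Gr
    simp only [dt_add, dt_sub, dt_smul]
    rw [dt_comm v u]
    ring
  have e2 : dt w s = q + h * r := by
    rw [hs, hr, hq]
    unfold Gr
    simp only [dt_add, dt_sub, dt_smul]
    rw [dt_comm w u, dt_comm w v]
    ring
  refine ⟨s, e0, ?_, ?_, ?_⟩
  · rw [e1]
    intro h0
    rcases eq_or_ne q 0 with hq0 | hq0
    · rw [hq0, mul_zero, add_zero] at h0
      exact h1 h0
    · apply k1
      rw [eq_div_iff hq0]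
      linarith
  · rw [e2]
    intro h0
    apply k2
    rw [eq_div_iff h2]
    linarith
  · rw [e1, e2]
    intro h0
    rcases eq_or_ne (q - r) 0 with hq0 | hq0
    · apply h4
      have : h * q = h * r := by rw [sub_eq_zero.1 hq0]
      linarith
    · apply k3
      rw [eq_div_iff hq0]
      linarith

lemma F4_ne_of {u v w : Fin D → ℝ} (h1 : Gr u v ≠ 0) (h2 : Gr u w ≠ 0) (h3 : Gr u (v - w) ≠ 0) :
    ∃ s t : Fin D → ℝ, F4 u v w s t ≠ 0 := by
  obtain ⟨s, e0, e1, e2, e3⟩ := exists_s h1 h2 h3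
  have hN := ne_zero_of_Gr h1
  by_contra hc
  push Not at hc
  have k1 := hc s u
  have k2 := hc s ((2 : ℝ) • u)
  unfold F4 at k1 k2
  simp only [dt_smul, e0] at k1 k2
  have k3 : dt u u * (dt v s * dt w s * (dt v s - dt w s)) = 0 := by
    nlinarith [k1, k2]
  rcases mul_eq_zero.1 k3 with h | h
  · exact hN h
  · rcases mul_eq_zero.1 h with h | h
    · rcases mul_eq_zero.1 h with h | h
      · exact e1 h
      · exact e2 h
    · exact e3 (sub_eq_zero.1 h)

lemma F4_ne {u v w : Fin D → ℝ} (h1 : Gr u v ≠ 0) (h2 : Gr u w ≠ 0) (h3 : Gr v w ≠ 0) :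
    ∃ s t : Fin D → ℝ, F4 u v w s t ≠ 0 := by
  by_cases c1 : Gr u (v - w) ≠ 0
  · exact F4_ne_of h1 h2 c1
  by_cases c2 : Gr v (w - u) ≠ 0
  · obtain ⟨s, t, h⟩ := F4_ne_of h3 (by rwa [Gr_comm] : Gr v u ≠ 0) c2
    exact ⟨s, t, by rwa [F4_cyc]⟩
  by_cases c3 : Gr w (u - v) ≠ 0
  · obtain ⟨s, t, h⟩ := F4_ne_of (by rwa [Gr_comm] : Gr w u ≠ 0) (by rwa [Gr_comm] : Gr w v ≠ 0) c3
    exact ⟨s, t, by rwa [F4_cyc, F4_cyc]⟩
  exfalso
  push Not at c1 c2 c3
  have p1 := par_of_Gr c1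
  have p2 := par_of_Gr c2
  have p3 := par_of_Gr c3
  have hu : dt u u ≠ 0 := ne_zero_of_Gr h1
  have hv : dt v v ≠ 0 := ne_zero_of_Gr h3
  have hw : dt w w ≠ 0 := ne_zero_of_Gr (by rwa [Gr_comm] : Gr w u ≠ 0)
  obtain ⟨l, hl⟩ : ∃ l : ℝ, v - w = l • u := by
    refine ⟨(dt u u)⁻¹ * dt u (v - w), ?_⟩
    rw [mul_smul, ← p1, smul_smul, inv_mul_cancel₀ hu, one_smul]
  obtain ⟨m, hm⟩ : ∃ m : ℝ, w - u = m • v := by
    refine ⟨(dt v v)⁻¹ * dt v (w - u), ?_⟩
    rw [mul_smul, ← p2, smul_smul, inv_mul_cancel₀ hv, one_smul]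
  obtain ⟨n, hn⟩ : ∃ n : ℝ, u - v = n • w := by
    refine ⟨(dt w w)⁻¹ * dt w (u - v), ?_⟩
    rw [mul_smul, ← p3, smul_smul, inv_mul_cancel₀ hw, one_smul]
  have hv2 : v = w + l • u := by rw [← hl]; abel
  have q1 : (1 + m * l) • u = (1 - m) • w := by
    have : w - u = m • w + (m * l) • u := by
      rw [hm, hv2, smul_add, smul_smul]
    rw [add_smul, sub_smul, one_smul, one_smul]
    have h4 : u + (m * l) • u = w - m • w := by
      have : w = u + (m • w + (m * l) • u) := by rw [← this]; abel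
      calc u + (m * l) • u = u + (m • w + (m * l) • u) - m • w := by abel
        _ = w - m • w := by rw [← this]
    exact h4
  obtain ⟨q2, q3⟩ := indep h2 q1
  have hm1 : m = 1 := by linarith
  have hl1 : l = -1 := by rw [hm1] at q2; linarith
  rw [hl1] at hv2
  have q4 : (2 : ℝ) • u = (1 + n) • w := by
    rw [hv2] at hn
    rw [add_smul, one_smul, ← hn, two_smul]
    simp
    abel
  exact two_ne_zero (indep h2 q4).1

/-! ### Generic directions -/

open MvPolynomial

lemma exists_eval {σ : Type} (S : Finset (MvPolynomial σ ℝ)) :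
    ∃ x : σ → ℝ, ∀ p ∈ S, p ≠ 0 → eval x p ≠ 0 := by
  classical
  have hq : ∏ p ∈ S.filter (fun p => p ≠ 0), p ≠ 0 := by
    rw [prod_ne_zero_iff]
    intro p hp
    exact (mem_filter.1 hp).2
  by_contra hc
  push Not at hc
  apply hq
  apply MvPolynomial.funext
  intro x
  obtain ⟨p, hp, hp0, hpx⟩ := hc x
  rw [map_prod, map_zero]
  exact prod_eq_zero (mem_filter.2 ⟨hp, hp0⟩) hpx

/-- linear form in the first group of variables -/
noncomputable def l1 (u : Fin D → ℝ) : MvPolynomial (Fin D ⊕ Fin D) ℝ :=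
  ∑ i, C (u i) * X (Sum.inl i)

/-- linear form in the second group of variables -/
noncomputable def l2 (u : Fin D → ℝ) : MvPolynomial (Fin D ⊕ Fin D) ℝ :=
  ∑ i, C (u i) * X (Sum.inr i)

lemma eval_l1 (u : Fin D → ℝ) (x : Fin D ⊕ Fin D → ℝ) :
    eval x (l1 u) = dt u (fun i => x (Sum.inl i)) := by
  unfold l1 dt
  rw [map_sum]
  exact sum_congr rfl fun i _ => by simp

lemma eval_l2 (u : Fin D → ℝ) (x : Fin D ⊕ Fin D → ℝ) :
    eval x (l2 u) = dt u (fun i => x (Sum.inr i)) := by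
  unfold l2 dt
  rw [map_sum]
  exact sum_congr rfl fun i _ => by simp

noncomputable def P3 (u v : Fin D → ℝ) : MvPolynomial (Fin D ⊕ Fin D) ℝ :=
  l1 u * l2 v - l2 u * l1 v

noncomputable def P4 (u v w : Fin D → ℝ) : MvPolynomial (Fin D ⊕ Fin D) ℝ :=
  (l1 u ^ 2 + l2 u ^ 2) * (l1 v * l2 w - l2 v * l1 w) +
  (l1 v ^ 2 + l2 v ^ 2) * (l1 w * l2 u - l2 w * l1 u) +
  (l1 w ^ 2 + l2 w ^ 2) * (l1 u * l2 v - l2 u * l1 v)

lemma P3_ne {u v : Fin D → ℝ} (h : Gr u v ≠ 0) : P3 u v ≠ 0 := by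
  intro h0
  have := congrArg (eval (Sum.elim u v)) h0
  rw [map_zero] at this
  unfold P3 at this
  simp only [map_sub, map_mul, eval_l1, eval_l2, Sum.elim_inl, Sum.elim_inr] at this
  apply h
  unfold Gr
  have e : dt v (fun i => u i) = dt u v := dt_comm _ _
  have e2 : dt u (fun i => u i) = dt u u := rfl
  have e3 : dt v (fun i => v i) = dt v v := rfl
  have e4 : dt u (fun i => v i) = dt u v := rfl
  rw [e, e2, e3, e4] at this
  linarith

lemma P4_ne {u v w : Fin D → ℝ} (h1 : Gr u v ≠ 0) (h2 : Gr u w ≠ 0) (h3 : Gr v w ≠ 0) :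
    P4 u v w ≠ 0 := by
  intro h0
  obtain ⟨s, t, h⟩ := F4_ne h1 h2 h3
  have := congrArg (eval (Sum.elim s t)) h0
  rw [map_zero] at this
  unfold P4 at this
  simp only [map_sub, map_add, map_pow, map_mul, eval_l1, eval_l2, Sum.elim_inl, Sum.elim_inr] at this
  apply h
  unfold F4
  exact this

/-- generic directions for a finite set of points without three on a line -/
theorem generic (A : Finset (Fin D → ℝ))
    (hA : ∀ a ∈ A, ∀ b ∈ A, ∀ c ∈ A, a ≠ b → a ≠ c → b ≠ c → Gr (b - a) (c - a) ≠ 0) :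
    ∃ s t : Fin D → ℝ,
      (∀ a ∈ A, ∀ b ∈ A, ∀ c ∈ A, a ≠ b → a ≠ c → b ≠ c →
        dt (b - a) s * dt (c - a) t - dt (b - a) t * dt (c - a) s ≠ 0) ∧
      (∀ a ∈ A, ∀ b ∈ A, ∀ c ∈ A, ∀ e ∈ A, a ≠ b → a ≠ c → a ≠ e → b ≠ c → b ≠ e → c ≠ e →
        F4 (b - a) (c - a) (e - a) s t ≠ 0) := by
  classical
  obtain ⟨x, hx⟩ := exists_eval
    ((A ×ˢ A ×ˢ A).image (fun z => P3 (z.2.1 - z.1) (z.2.2 - z.1)) ∪
      (A ×ˢ A ×ˢ A ×ˢ A).image (fun z => P4 (z.2.1 - z.1) (z.2.2.1 - z.1) (z.2.2.2 - z.1)))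
  refine ⟨fun i => x (Sum.inl i), fun i => x (Sum.inr i), ?_, ?_⟩
  · intro a ha b hb c hc h1 h2 h3
    have := hx (P3 (b - a) (c - a)) (mem_union_left _ (mem_image.2
      ⟨(a, b, c), by simp [ha, hb, hc], rfl⟩)) (P3_ne (hA a ha b hb c hc h1 h2 h3))
    unfold P3 at this
    simpa only [map_sub, map_mul, eval_l1, eval_l2] using this
  · intro a ha b hb c hc e he h1 h2 h3 h4 h5 h6
    have := hx (P4 (b - a) (c - a) (e - a)) (mem_union_right _ (mem_image.2
      ⟨(a, b, c, e), by simp [ha, hb, hc, he], rfl⟩)) (P4_ne (hA a ha b hb c hc h1 h2 h4)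
        (hA a ha b hb e he h1 h3 h5) (hA a ha c hc e he h2 h3 h6))
    unfold P4 at this
    unfold F4
    simpa only [map_sub, map_add, map_pow, map_mul, eval_l1, eval_l2] using this

end Pool.Agent.Run7.h205.CR
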