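import Pool.Agent.Run7.h205.CR.Geo

/-!
# Generic projections of lattice points on a sphere: the count
-/

set_option autoImplicit false

open Finset

namespace Pool.Agent.Run7.h205.CR

theorem box_bound (n k m : ℕ) (hn : 3 ≤ n) (hm : (((k + 2 : ℕ) : ℝ) * n) ≤ (m : ℝ) ^ k) :
    ∃ P : Finset Pl, P.card = n ∧ GenPos P ∧ (Radii P).Finite ∧
      (Radii P).ncard ≤ ((2 * m - 1) ^ (k + 2)) ^ 2 := by
  classical
  obtain ⟨K, hK⟩ := Behrend.exists_large_sphere (k + 2) m
  have hn0 : (3 : ℝ) ≤ n := by exact_mod_cast hn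
  have hD0 : (0 : ℝ) < ((k + 2 : ℕ) : ℝ) := by positivity
  have hk : k ≠ 0 := by
    rintro rfl
    rw [pow_zero] at hm
    norm_num at hm
    linarith
  have hm0 : 0 < m := by
    rcases Nat.eq_zero_or_pos m with h | h
    · subst h
      rw [Nat.cast_zero, zero_pow hk] at hm
      nlinarith
    · exact h
  have hmR : (0 : ℝ) < m := by exact_mod_cast hm0
  have h1 : (n : ℝ) ≤ #(Behrend.sphere (k + 2) m K) := by
    refine le_trans ?_ hK
    push_cast
    rw [le_div_iff₀ (by positivity)]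
    have e : (m : ℝ) ^ (k + 2) = (m : ℝ) ^ k * (m : ℝ) ^ 2 := pow_add _ _ _
    rw [e]
    push_cast at hm
    calc (n : ℝ) * (((k : ℝ) + 2) * (m : ℝ) ^ 2) = ((k : ℝ) + 2) * n * (m : ℝ) ^ 2 := by ring
      _ ≤ (m : ℝ) ^ k * (m : ℝ) ^ 2 := mul_le_mul_of_nonneg_right hm (by positivity)
  have h2 : n ≤ #(Behrend.sphere (k + 2) m K) := by exact_mod_cast h1
  obtain ⟨B, hB, hBn⟩ := exists_subset_card_eq h2
  set g : (Fin (k + 2) → ℕ) → (Fin (k + 2) → ℤ) := fun x i => (x i : ℤ) with hg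
  have hginj : Function.Injective g := by
    intro x y h
    funext i
    have := congrFun h i
    simp only [hg] at this
    exact_mod_cast this
  have hcard : (B.image g).card = n := by
    rw [card_image_of_injective _ hginj, hBn]
  obtain ⟨P, p1, p2, p3, p4⟩ := constr m (K : ℤ) (B.image g) (by omega) (by
    intro x hx
    rw [mem_image] at hx
    obtain ⟨y, hy, rfl⟩ := hx
    have h3 := (mem_filter.1 (hB hy)).2
    rw [← h3]
    push_cast
    exact sum_congr rfl fun i _ => by simp only [hg]; ring) (by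
    intro x hx i
    rw [mem_image] at hx
    obtain ⟨y, hy, rfl⟩ := hx
    have h3 := Behrend.mem_box.1 (mem_filter.1 (hB hy)).1 i
    simp only [hg]
    constructor
    · positivity
    · exact_mod_cast h3)
  exact ⟨P, p1.trans hcard, p2, p3, p4⟩

theorem main (n : ℕ) (hn : 3 ≤ n) :
    ∃ P : Finset Pl, P.card = n ∧ GenPos P ∧ (Radii P).Finite ∧
      ((Radii P).ncard : ℝ) ≤ (n : ℝ) ^ 2 * Real.exp (52 * √(Real.log n)) := by
  have hn0 : (3 : ℝ) ≤ n := by exact_mod_cast hn
  have hnpos : (0 : ℝ) < n := by linarith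
  set L := √(Real.log n) with hL
  have hlog : 1 ≤ Real.log n := by
    rw [Real.le_log_iff_exp_le hnpos]
    have := Real.exp_one_lt_d9
    linarith
  have hL1 : 1 ≤ L := by
    rw [hL, Real.one_le_sqrt]
    exact hlog
  have hL2 : L * L = Real.log n := Real.mul_self_sqrt (by linarith)
  set k := ⌈L⌉₊ with hk
  have hk1 : L ≤ k := Nat.le_ceil L
  have hk2 : (k : ℝ) < L + 1 := Nat.ceil_lt_add_one (by linarith)
  have hk0 : (0 : ℝ) < k := by linarith
  have hk0' : k ≠ 0 := by
    intro h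
    rw [h] at hk0
    simp at hk0
  set Dr : ℝ := ((k + 2 : ℕ) : ℝ) with hDr
  have hDr1 : Dr = k + 2 := by rw [hDr]; push_cast; ring
  have hDn : 1 ≤ Dr * n := by nlinarith
  set y : ℝ := (Dr * n) ^ (1 / (k : ℝ)) with hy
  have hy1 : 1 ≤ y := Real.one_le_rpow hDn (by positivity)
  have hyk : y ^ k = Dr * n := by
    rw [hy, ← Real.rpow_natCast, ← Real.rpow_mul (by linarith), one_div,
      inv_mul_cancel₀ (by exact_mod_cast hk0'), Real.rpow_one]
  set m := ⌈y⌉₊ with hm
  have hm1 : y ≤ m := Nat.le_ceil y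
  have hm2 : (m : ℝ) < y + 1 := Nat.ceil_lt_add_one (by linarith)
  obtain ⟨P, p1, p2, p3, p4⟩ := box_bound n k m hn (by
    rw [← hyk]
    exact pow_le_pow_left₀ (by linarith) hm1 k)
  refine ⟨P, p1, p2, p3, ?_⟩
  have h1 : ((Radii P).ncard : ℝ) ≤ ((4 * y) ^ (k + 2)) ^ 2 := by
    calc ((Radii P).ncard : ℝ) ≤ ((((2 * m - 1) ^ (k + 2)) ^ 2 : ℕ) : ℝ) := by exact_mod_cast p4
      _ = (((2 * m - 1 : ℕ) : ℝ) ^ (k + 2)) ^ 2 := by push_cast; ring
      _ ≤ ((4 * y) ^ (k + 2)) ^ 2 := by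
          apply pow_le_pow_left₀ (by positivity)
          apply pow_le_pow_left₀ (by positivity)
          have : ((2 * m - 1 : ℕ) : ℝ) ≤ 2 * m := by
            have : 2 * m - 1 ≤ 2 * m := Nat.sub_le _ _
            exact_mod_cast this
          linarith
  refine h1.trans ?_
  have h4y : 0 < 4 * y := by linarith
  have e1 : ((4 * y) ^ (k + 2)) ^ 2 = Real.exp (2 * (k + 2) * Real.log (4 * y)) := by
    rw [← pow_mul, ← Real.exp_log (pow_pos h4y _), Real.log_pow]
    congr 1
    push_cast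
    ring
  have e2 : (n : ℝ) ^ 2 * Real.exp (52 * L) = Real.exp (2 * Real.log n + 52 * L) := by
    rw [Real.exp_add, ← Real.log_rpow hnpos, Real.exp_log (by positivity)]
    norm_num
  rw [e1, e2, Real.exp_le_exp]
  have hlog4 : Real.log 4 ≤ 3 := by
    have := Real.log_le_sub_one_of_pos (show (0 : ℝ) < 4 by norm_num)
    linarith
  have hlogy : Real.log (4 * y) = Real.log 4 + (Real.log Dr + Real.log n) / k := by
    rw [Real.log_mul (by norm_num) (by linarith), hy, Real.log_rpow (by linarith),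
      Real.log_mul (by rw [hDr1]; linarith) (by linarith)]
    ring
  have hlogD : Real.log Dr ≤ 4 * L := by
    have := Real.log_le_sub_one_of_pos (show 0 < Dr by rw [hDr1]; linarith)
    linarith
  have hlogD0 : 0 ≤ Real.log Dr := Real.log_nonneg (by rw [hDr1]; linarith)
  rw [hlogy]
  have e3 : 2 * ((k : ℝ) + 2) * (Real.log 4 + (Real.log Dr + Real.log n) / k) =
      2 * ((k : ℝ) + 2) * Real.log 4 + (2 + 4 / k) * Real.log Dr + 2 * Real.log n +
        4 * (Real.log n / k) := by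
    field_simp
    ring
  rw [e3]
  have a1 : 2 * ((k : ℝ) + 2) * Real.log 4 ≤ 24 * L := by
    have : 2 * ((k : ℝ) + 2) ≤ 8 * L := by linarith
    calc 2 * ((k : ℝ) + 2) * Real.log 4 ≤ 8 * L * 3 :=
          mul_le_mul this hlog4 (Real.log_nonneg (by norm_num)) (by linarith)
      _ = 24 * L := by ring
  have a2 : (2 + 4 / (k : ℝ)) * Real.log Dr ≤ 24 * L := by
    have : 4 / (k : ℝ) ≤ 4 := by
      rw [div_le_iff₀ hk0]
      linarith
    calc (2 + 4 / (k : ℝ)) * Real.log Dr ≤ 6 * (4 * L) :=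
          mul_le_mul (by linarith) hlogD hlogD0 (by norm_num)
      _ = 24 * L := by ring
  have a3 : Real.log n / k ≤ L := by
    rw [div_le_iff₀ hk0, ← hL2]
    exact mul_le_mul_of_nonneg_left hk1 (by linarith)
  linarith

end Pool.Agent.Run7.h205.CR
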