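import Pool.Agent.Run7.h205.CR.Cnt

/-!
# The radii of a finite set in general position are finite in number
-/

set_option autoImplicit false

open Finset

namespace Pool.Agent.Run7.h205.CR

lemma collinear_of_det {a b c : Pl} (hab : a ≠ b)
    (h : (b 0 - a 0) * (c 1 - a 1) - (b 1 - a 1) * (c 0 - a 0) = 0) : Collinear ℝ {a, b, c} := by
  rw [collinear_iff_of_mem (p₀ := a) (by simp)]
  have hN : (b 0 - a 0) ^ 2 + (b 1 - a 1) ^ 2 ≠ 0 := by
    intro h0
    apply hab
    have h1 : b 0 - a 0 = 0 := by nlinarith [sq_nonneg (b 0 - a 0), sq_nonneg (b 1 - a 1)]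
    have h2 : b 1 - a 1 = 0 := by nlinarith [sq_nonneg (b 0 - a 0), sq_nonneg (b 1 - a 1)]
    ext i
    fin_cases i
    · simp only [Fin.zero_eta]; linarith
    · simp only [Fin.mk_one]; linarith
  refine ⟨b - a, ?_⟩
  intro p hp
  simp only [Set.mem_insert_iff, Set.mem_singleton_iff] at hp
  rcases hp with rfl | rfl | rfl
  · exact ⟨0, by simp⟩
  · exact ⟨1, by simp⟩
  · refine ⟨((b 0 - a 0) * (p 0 - a 0) + (b 1 - a 1) * (p 1 - a 1)) /
      ((b 0 - a 0) ^ 2 + (b 1 - a 1) ^ 2), ?_⟩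
    ext i
    fin_cases i
    · simp only [Fin.zero_eta, vadd_eq_add, PiLp.add_apply, PiLp.smul_apply, PiLp.sub_apply,
        smul_eq_mul]
      field_simp
      linear_combination (-(b 1 - a 1)) * h
    · simp only [Fin.mk_one, vadd_eq_add, PiLp.add_apply, PiLp.smul_apply, PiLp.sub_apply,
        smul_eq_mul]
      field_simp
      linear_combination (b 0 - a 0) * h

theorem radii_finite (P : Finset Pl) (hP : GenPos P) : (Radii P).Finite := by
  classical
  refine (finite_toSet ((P ×ˢ P ×ˢ P).image (fun z : Pl × Pl × Pl =>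
    rad (z.2.1 0 - z.1 0) (z.2.1 1 - z.1 1) (z.2.2 0 - z.1 0) (z.2.2 1 - z.1 1)))).subset ?_
  rintro r ⟨a, ha, b, hb, c, hc, h1, h2, h3, o, k1, k2, k3⟩
  have hr : 0 ≤ r := k1 ▸ dist_nonneg
  rw [mem_coe, mem_image]
  refine ⟨(a, b, c), by simp [ha, hb, hc], ?_⟩
  have ea := dist_sq a o
  have eb := dist_sq b o
  have ec := dist_sq c o
  rw [k1] at ea
  rw [k2] at eb
  rw [k3] at ec
  refine rad_eq (p := o 0 - a 0) (q := o 1 - a 1) hr ?_ ?_ ?_ ?_
  · intro h
    exact hP.1 a ha b hb c hc h1 h2 h3 (collinear_of_det h1 h)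
  · rw [ea]; ring
  · rw [eb]; ring
  · rw [ec]; ring

end Pool.Agent.Run7.h205.CR
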