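import Pool.Agent.Run7.h205.CR.Alg

/-!
# Generic projections of lattice points on a sphere: the plane, circumradii
-/

set_option autoImplicit false

open Finset

namespace Pool.Agent.Run7.h205.CR

/-- The Euclidean plane. -/
abbrev Pl : Type := EuclideanSpace ℝ (Fin 2)

/-- General position: no three points on a line, no four on a circle. -/
def GenPos (P : Finset Pl) : Prop :=
  (∀ a ∈ P, ∀ b ∈ P, ∀ c ∈ P, a ≠ b → a ≠ c → b ≠ c → ¬ Collinear ℝ {a, b, c}) ∧
  ∀ a ∈ P, ∀ b ∈ P, ∀ c ∈ P, ∀ e ∈ P, a ≠ b → a ≠ c → a ≠ e → b ≠ c → b ≠ e → c ≠ e →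
    ¬ EuclideanGeometry.Cospherical {a, b, c, e}

/-- The radii of the circles through three points of `P`. -/
def Radii (P : Finset Pl) : Set ℝ :=
  {r | ∃ a ∈ P, ∃ b ∈ P, ∃ c ∈ P, a ≠ b ∧ a ≠ c ∧ b ≠ c ∧
    ∃ o : Pl, dist a o = r ∧ dist b o = r ∧ dist c o = r}

lemma dist_sq (p o : Pl) : dist p o ^ 2 = (p 0 - o 0) ^ 2 + (p 1 - o 1) ^ 2 := by
  rw [EuclideanSpace.dist_eq, Real.sq_sqrt (by positivity), Fin.sum_univ_two]
  simp [Real.dist_eq, sq_abs]

/-- the radius of the circle through `0`, `(x, y)` and `(z, w)` -/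
noncomputable def rad (x y z w : ℝ) : ℝ :=
  Real.sqrt ((((x ^ 2 + y ^ 2) * w - (z ^ 2 + w ^ 2) * y) / (2 * (x * w - y * z))) ^ 2 +
    ((x * (z ^ 2 + w ^ 2) - z * (x ^ 2 + y ^ 2)) / (2 * (x * w - y * z))) ^ 2)

lemma rad_eq {x y z w p q r : ℝ} (hr : 0 ≤ r) (h : x * w - y * z ≠ 0) (h0 : p ^ 2 + q ^ 2 = r ^ 2)
    (h1 : (x - p) ^ 2 + (y - q) ^ 2 = r ^ 2) (h2 : (z - p) ^ 2 + (w - q) ^ 2 = r ^ 2) :
    rad x y z w = r := by
  have e1 : x ^ 2 + y ^ 2 = 2 * (x * p + y * q) := by nlinarith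
  have e2 : z ^ 2 + w ^ 2 = 2 * (z * p + w * q) := by nlinarith
  have hp : ((x ^ 2 + y ^ 2) * w - (z ^ 2 + w ^ 2) * y) / (2 * (x * w - y * z)) = p := by
    rw [e1, e2, div_eq_iff (by simpa using h)]
    ring
  have hq : (x * (z ^ 2 + w ^ 2) - z * (x ^ 2 + y ^ 2)) / (2 * (x * w - y * z)) = q := by
    rw [e1, e2, div_eq_iff (by simpa using h)]
    ring
  unfold rad
  rw [hp, hq, h0, Real.sqrt_sq hr]

lemma det_of_collinear {a b c : Pl} (h : Collinear ℝ {a, b, c}) :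
    (b 0 - a 0) * (c 1 - a 1) - (b 1 - a 1) * (c 0 - a 0) = 0 := by
  rw [collinear_iff_of_mem (p₀ := a) (by simp)] at h
  obtain ⟨v, hv⟩ := h
  obtain ⟨r1, h1⟩ := hv b (by simp)
  obtain ⟨r2, h2⟩ := hv c (by simp)
  have b0 : b 0 = r1 * v 0 + a 0 := by rw [h1]; simp
  have b1 : b 1 = r1 * v 1 + a 1 := by rw [h1]; simp
  have c0 : c 0 = r2 * v 0 + a 0 := by rw [h2]; simp
  have c1 : c 1 = r2 * v 1 + a 1 := by rw [h2]; simp
  rw [b0, b1, c0, c1]
  ring

variable {D : ℕ}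

/-- the projection -/
noncomputable def pr (s t x : Fin D → ℝ) : Pl := !₂[dt x s, dt x t]

lemma pr_zero (s t x : Fin D → ℝ) : pr s t x 0 = dt x s := rfl

lemma pr_one (s t x : Fin D → ℝ) : pr s t x 1 = dt x t := rfl

lemma cosph {s t a b c e : Fin D → ℝ}
    (h : EuclideanGeometry.Cospherical {pr s t a, pr s t b, pr s t c, pr s t e}) :
    F4 (b - a) (c - a) (e - a) s t = 0 := by
  obtain ⟨o, r, hr⟩ := h
  have ha := hr _ (by simp : pr s t a ∈ ({pr s t a, pr s t b, pr s t c, pr s t e} : Set Pl))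
  have hb := hr _ (by simp : pr s t b ∈ ({pr s t a, pr s t b, pr s t c, pr s t e} : Set Pl))
  have hc := hr _ (by simp : pr s t c ∈ ({pr s t a, pr s t b, pr s t c, pr s t e} : Set Pl))
  have he := hr _ (by simp : pr s t e ∈ ({pr s t a, pr s t b, pr s t c, pr s t e} : Set Pl))
  have ea := dist_sq (pr s t a) o
  have eb := dist_sq (pr s t b) o
  have ec := dist_sq (pr s t c) o
  have ee := dist_sq (pr s t e) o
  rw [ha] at ea
  rw [hb] at eb
  rw [hc] at ec
  rw [he] at ee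
  simp only [pr_zero, pr_one] at ea eb ec ee
  unfold F4
  simp only [sub_dt]
  generalize dt a s = a0 at *
  generalize dt a t = a1 at *
  generalize dt b s = b0 at *
  generalize dt b t = b1 at *
  generalize dt c s = c0 at *
  generalize dt c t = c1 at *
  generalize dt e s = e0 at *
  generalize dt e t = e1 at *
  generalize o 0 = p at *
  generalize o 1 = q at *
  have k1 : (b0 - a0) ^ 2 + (b1 - a1) ^ 2 = 2 * ((b0 - a0) * (p - a0) + (b1 - a1) * (q - a1)) := by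
    linarith
  have k2 : (c0 - a0) ^ 2 + (c1 - a1) ^ 2 = 2 * ((c0 - a0) * (p - a0) + (c1 - a1) * (q - a1)) := by
    linarith
  have k3 : (e0 - a0) ^ 2 + (e1 - a1) ^ 2 = 2 * ((e0 - a0) * (p - a0) + (e1 - a1) * (q - a1)) := by
    linarith
  rw [k1, k2, k3]
  ring

/-- integer vectors as real vectors -/
def cv (x : Fin D → ℤ) : Fin D → ℝ := fun i => (x i : ℝ)

lemma cv_sub (x y : Fin D → ℤ) : cv (x - y) = cv x - cv y := by
  funext i
  simp [cv]

lemma cv_inj {x y : Fin D → ℤ} (h : cv x = cv y) : x = y := by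
  funext i
  have := congrFun h i
  unfold cv at this
  exact_mod_cast this

/-- **Main construction.** Integer points on a sphere in a box. -/
theorem constr (m : ℕ) (K : ℤ) (A : Finset (Fin D → ℤ)) (h3 : 3 ≤ A.card)
    (hA : ∀ x ∈ A, ∑ i, x i * x i = K)
    (hbox : ∀ x ∈ A, ∀ i, 0 ≤ x i ∧ x i < m) :
    ∃ P : Finset Pl, P.card = A.card ∧ GenPos P ∧ (Radii P).Finite ∧
      (Radii P).ncard ≤ ((2 * m - 1) ^ D) ^ 2 := by
  classical
  have hsph : ∀ x ∈ A, dt (cv x) (cv x) = K := by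
    intro x hx
    have := hA x hx
    unfold dt cv
    rw [← this]
    push_cast
    rfl
  have hG : ∀ a ∈ A.image cv, ∀ b ∈ A.image cv, ∀ c ∈ A.image cv, a ≠ b → a ≠ c → b ≠ c →
      Gr (b - a) (c - a) ≠ 0 := by
    intro a ha b hb c hc h1 h2 h3
    rw [mem_image] at ha hb hc
    obtain ⟨x, hx, rfl⟩ := ha
    obtain ⟨y, hy, rfl⟩ := hb
    obtain ⟨z, hz, rfl⟩ := hc
    exact Gr_sphere (by rw [hsph x hx, hsph y hy]) (by rw [hsph x hx, hsph z hz]) h1 h2 h3
  obtain ⟨s, t, g3, g4⟩ := generic (A.image cv) hG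
  have g3' : ∀ x ∈ A, ∀ y ∈ A, ∀ z ∈ A, x ≠ y → x ≠ z → y ≠ z →
      dt (cv y - cv x) s * dt (cv z - cv x) t - dt (cv y - cv x) t * dt (cv z - cv x) s ≠ 0 := by
    intro x hx y hy z hz h1 h2 h3
    exact g3 _ (mem_image_of_mem _ hx) _ (mem_image_of_mem _ hy) _ (mem_image_of_mem _ hz)
      (fun h => h1 (cv_inj h)) (fun h => h2 (cv_inj h)) (fun h => h3 (cv_inj h))
  have hinj : ∀ x ∈ A, ∀ y ∈ A, pr s t (cv x) = pr s t (cv y) → x = y := by
    intro x hx y hy hxy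
    by_contra hne
    obtain ⟨z, hz, hz2⟩ := exists_mem_notMem_of_card_lt_card
      (lt_of_le_of_lt (card_le_two (a := x) (b := y)) (by omega : 2 < A.card))
    simp only [mem_insert, mem_singleton, not_or] at hz2
    apply g3' x hx y hy z hz hne (fun h => hz2.1 h.symm) (fun h => hz2.2 h.symm)
    have e0 : dt (cv x) s = dt (cv y) s := congrArg (fun p : Pl => p 0) hxy
    have e1 : dt (cv x) t = dt (cv y) t := congrArg (fun p : Pl => p 1) hxy
    simp only [sub_dt, e0, e1]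
    ring
  set P : Finset Pl := A.image (fun x => pr s t (cv x)) with hP
  have hmem : ∀ a ∈ P, ∃ x ∈ A, a = pr s t (cv x) := by
    intro a ha
    rw [hP, mem_image] at ha
    obtain ⟨x, hx, rfl⟩ := ha
    exact ⟨x, hx, rfl⟩
  set Ds : Finset (Fin D → ℤ) := Fintype.piFinset (fun _ => Ioo (-(m : ℤ)) m) with hDs
  have hcard : Ds.card = (2 * m - 1) ^ D := by
    rw [hDs, Fintype.card_piFinset, prod_const, card_univ, Fintype.card_fin, Int.card_Ioo]
    congr 1
    omega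
  set f : (Fin D → ℤ) × (Fin D → ℤ) → ℝ := fun z =>
    rad (dt (cv z.1) s) (dt (cv z.1) t) (dt (cv z.2) s) (dt (cv z.2) t) with hf
  have hdiff : ∀ x ∈ A, ∀ y ∈ A, y - x ∈ Ds := by
    intro x hx y hy
    rw [hDs, Fintype.mem_piFinset]
    intro i
    have h1 := hbox x hx i
    have h2 := hbox y hy i
    rw [mem_Ioo, Pi.sub_apply]
    constructor <;> linarith [h1.1, h1.2, h2.1, h2.2]
  have hsub : Radii P ⊆ ((Ds ×ˢ Ds).image f : Finset ℝ) := by
    rintro r ⟨a, ha, b, hb, c, hc, h1, h2, h3, o, k1, k2, k3⟩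
    obtain ⟨x, hx, rfl⟩ := hmem a ha
    obtain ⟨y, hy, rfl⟩ := hmem b hb
    obtain ⟨z, hz, rfl⟩ := hmem c hc
    have hxy : x ≠ y := fun h => h1 (by rw [h])
    have hxz : x ≠ z := fun h => h2 (by rw [h])
    have hyz : y ≠ z := fun h => h3 (by rw [h])
    have hr : 0 ≤ r := k1 ▸ dist_nonneg
    rw [mem_coe, mem_image]
    refine ⟨(y - x, z - x), mem_product.2 ⟨hdiff x hx y hy, hdiff x hx z hz⟩, ?_⟩
    have ea := dist_sq (pr s t (cv x)) o
    have eb := dist_sq (pr s t (cv y)) o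
    have ec := dist_sq (pr s t (cv z)) o
    rw [k1] at ea
    rw [k2] at eb
    rw [k3] at ec
    simp only [pr_zero, pr_one] at ea eb ec
    have hd := g3' x hx y hy z hz hxy hxz hyz
    simp only [hf, cv_sub]
    refine rad_eq (p := o 0 - dt (cv x) s) (q := o 1 - dt (cv x) t) hr hd ?_ ?_ ?_
    · rw [ea]; ring
    · rw [eb, sub_dt, sub_dt]; ring
    · rw [ec, sub_dt, sub_dt]; ring
  refine ⟨P, ?_, ⟨?_, ?_⟩, (finite_toSet _).subset hsub, ?_⟩
  · rw [hP, card_image_of_injOn]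
    intro x hx y hy h
    exact hinj x (mem_coe.1 hx) y (mem_coe.1 hy) h
  · intro a ha b hb c hc h1 h2 h3 hcol
    obtain ⟨x, hx, rfl⟩ := hmem a ha
    obtain ⟨y, hy, rfl⟩ := hmem b hb
    obtain ⟨z, hz, rfl⟩ := hmem c hc
    apply g3' x hx y hy z hz (fun h => h1 (by rw [h])) (fun h => h2 (by rw [h]))
      (fun h => h3 (by rw [h]))
    have := det_of_collinear hcol
    simp only [pr_zero, pr_one] at this
    simpa only [sub_dt] using this
  · intro a ha b hb c hc e he h1 h2 h3 h4 h5 h6 hcol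
    obtain ⟨x, hx, rfl⟩ := hmem a ha
    obtain ⟨y, hy, rfl⟩ := hmem b hb
    obtain ⟨z, hz, rfl⟩ := hmem c hc
    obtain ⟨w, hw, rfl⟩ := hmem e he
    apply g4 _ (mem_image_of_mem cv hx) _ (mem_image_of_mem cv hy) _ (mem_image_of_mem cv hz)
      _ (mem_image_of_mem cv hw) (fun h => h1 (by rw [h])) (fun h => h2 (by rw [h]))
      (fun h => h3 (by rw [h])) (fun h => h4 (by rw [h])) (fun h => h5 (by rw [h]))
      (fun h => h6 (by rw [h]))
    exact cosph hcol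
  · calc (Radii P).ncard ≤ (((Ds ×ˢ Ds).image f : Finset ℝ) : Set ℝ).ncard :=
          Set.ncard_le_ncard hsub (finite_toSet _)
      _ = ((Ds ×ˢ Ds).image f).card := Set.ncard_coe_finset _
      _ ≤ (Ds ×ˢ Ds).card := card_image_le
      _ = ((2 * m - 1) ^ D) ^ 2 := by rw [card_product, hcard, sq]

end Pool.Agent.Run7.h205.CR
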